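import Mathlib

/-! Slow compositions of degree two Blaschke products. -/

namespace Pool.Agent.H516_DW

open Complex Filter Topology MeasureTheory Set

/-- the disc automorphism `z ↦ (z + a) / (1 + a z)`, `a` real -/
noncomputable def mob (a : ℝ) (z : ℂ) : ℂ := (z + a) / (1 + a * z)

/-- the Blaschke product `z ↦ z (z + c) / (1 + c z)`, `c` real -/
noncomputable def bl (c : ℝ) (z : ℂ) : ℂ := z * mob c z

theorem den_ne {a : ℝ} (ha : |a| < 1) {z : ℂ} (hz : ‖z‖ ≤ 1) : (1 : ℂ) + a * z ≠ 0 := by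
  intro h
  have h1 : (a : ℂ) * z = -1 := by linear_combination h
  have h2 : ‖(a : ℂ) * z‖ = 1 := by rw [h1]; simp
  rw [norm_mul, norm_real, Real.norm_eq_abs] at h2
  nlinarith [abs_nonneg a, norm_nonneg z]

theorem norm_identity (a : ℝ) (z : ℂ) :
    ‖(1 : ℂ) + a * z‖ ^ 2 - ‖z + a‖ ^ 2 = (1 - a ^ 2) * (1 - ‖z‖ ^ 2) := by
  rw [Complex.sq_norm, Complex.sq_norm, Complex.sq_norm, normSq_apply, normSq_apply, normSq_apply]
  simp
  ring

theorem norm_mob_lt {a : ℝ} (ha : |a| < 1) {z : ℂ} (hz : ‖z‖ < 1) : ‖mob a z‖ < 1 := by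
  have h := norm_identity a z
  have hd : 0 < ‖(1 : ℂ) + a * z‖ := norm_pos_iff.2 (den_ne ha hz.le)
  rw [mob, norm_div, div_lt_one hd]
  have h1 : 0 < 1 - a ^ 2 := by
    have := sq_lt_one_iff_abs_lt_one a |>.2 ha
    linarith
  have h2 : 0 < 1 - ‖z‖ ^ 2 := by nlinarith [norm_nonneg z]
  have h3 := mul_pos h1 h2
  exact lt_of_pow_lt_pow_left₀ 2 (norm_nonneg _) (by linarith)

theorem norm_mob_eq {a : ℝ} (ha : |a| < 1) {z : ℂ} (hz : ‖z‖ = 1) : ‖mob a z‖ = 1 := by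
  have h := norm_identity a z
  have hd : 0 < ‖(1 : ℂ) + a * z‖ := norm_pos_iff.2 (den_ne ha hz.le)
  rw [mob, norm_div, div_eq_one_iff_eq hd.ne']
  rw [hz] at h
  have h3 : ‖z + a‖ ^ 2 = ‖(1 : ℂ) + a * z‖ ^ 2 := by linarith
  exact (pow_left_inj₀ (norm_nonneg _) (norm_nonneg _) two_ne_zero).1 h3

theorem norm_mob_le {a : ℝ} (ha : |a| < 1) {z : ℂ} (hz : ‖z‖ ≤ 1) : ‖mob a z‖ ≤ 1 := by
  rcases lt_or_eq_of_le hz with h | h
  · exact (norm_mob_lt ha h).le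
  · exact (norm_mob_eq ha h).le

theorem norm_bl_le {c : ℝ} (hc : |c| < 1) {z : ℂ} (hz : ‖z‖ ≤ 1) : ‖bl c z‖ ≤ ‖z‖ := by
  rw [bl, norm_mul]
  exact mul_le_of_le_one_right (norm_nonneg _) (norm_mob_le hc hz)

theorem norm_bl_eq {c : ℝ} (hc : |c| < 1) {z : ℂ} (hz : ‖z‖ = 1) : ‖bl c z‖ = 1 := by
  rw [bl, norm_mul, hz, norm_mob_eq hc hz, one_mul]

theorem mob_neg_mob {a : ℝ} (ha : |a| < 1) {z : ℂ} (hz : ‖z‖ ≤ 1) : mob (-a) (mob a z) = z := by
  have h1 := den_ne ha hz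
  have h2 : (1 : ℂ) - a * a ≠ 0 := by
    intro h
    have h3 : (1 : ℝ) - a * a = 0 := by exact_mod_cast h
    have := (sq_lt_one_iff_abs_lt_one a).2 ha
    nlinarith
  have e : (1 : ℂ) + ((-a : ℝ) : ℂ) * ((z + a) / (1 + a * z)) = (1 - a * a) / (1 + a * z) := by
    rw [ofReal_neg, eq_div_iff h1, add_mul, mul_assoc, div_mul_cancel₀ _ h1]
    ring
  have e2 : (z + a) / (1 + a * z) + ((-a : ℝ) : ℂ) = z * ((1 - a * a) / (1 + a * z)) := by
    rw [ofReal_neg, ← mul_div_assoc, eq_div_iff h1, add_mul, div_mul_cancel₀ _ h1]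
    ring
  rw [mob, mob, e, e2, mul_div_assoc, div_self (div_ne_zero h2 h1), mul_one]

theorem diff_mob {a : ℝ} (ha : |a| < 1) {z : ℂ} (hz : ‖z‖ ≤ 1) : DifferentiableAt ℂ (mob a) z := by
  unfold mob
  exact DifferentiableAt.div (by fun_prop) (by fun_prop) (den_ne ha hz)

theorem diff_bl {c : ℝ} (hc : |c| < 1) {z : ℂ} (hz : ‖z‖ ≤ 1) : DifferentiableAt ℂ (bl c) z := by
  unfold bl
  exact differentiableAt_id.mul (diff_mob hc hz)

/-- the parameters: `aa n = 1 - 4^(-log₄ n)` -/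
noncomputable def aa (n : ℕ) : ℝ := 1 - (1 / 4) ^ Nat.log 4 n

/-- `cc n = 0` if `n` is a power of four and `cc n = 1 - 4^(-n)` otherwise -/
noncomputable def cc (n : ℕ) : ℝ := if n = 4 ^ Nat.log 4 n then 0 else 1 - (1 / 4) ^ n

theorem aa_nonneg (n : ℕ) : 0 ≤ aa n := by
  have : (1 / 4 : ℝ) ^ Nat.log 4 n ≤ 1 := pow_le_one₀ (by norm_num) (by norm_num)
  rw [aa]
  linarith

theorem aa_lt (n : ℕ) : aa n < 1 := by
  have : (0 : ℝ) < (1 / 4 : ℝ) ^ Nat.log 4 n := by positivity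
  rw [aa]
  linarith

theorem aa_abs (n : ℕ) : |aa n| < 1 := by
  rw [abs_of_nonneg (aa_nonneg n)]
  exact aa_lt n

theorem aa_abs' (n : ℕ) : |-aa n| < 1 := by
  rw [abs_neg]
  exact aa_abs n

theorem cc_nonneg (n : ℕ) : 0 ≤ cc n := by
  rw [cc]
  split_ifs
  · exact le_rfl
  · have : (1 / 4 : ℝ) ^ n ≤ 1 := pow_le_one₀ (by norm_num) (by norm_num)
    linarith

theorem cc_lt (n : ℕ) : cc n < 1 := by
  rw [cc]
  split_ifs
  · norm_num
  · have : (0 : ℝ) < (1 / 4 : ℝ) ^ n := by positivity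
    linarith

theorem cc_abs (n : ℕ) : |cc n| < 1 := by
  rw [abs_of_nonneg (cc_nonneg n)]
  exact cc_lt n

/-- the core composition, fixing the origin -/
noncomputable def HH : ℕ → ℂ → ℂ
  | 0 => id
  | n + 1 => bl (cc (n + 1)) ∘ HH n

/-- the maps of the sequence -/
noncomputable def ff (n : ℕ) : ℂ → ℂ := mob (aa (n + 1)) ∘ bl (cc (n + 1)) ∘ mob (-aa n)

/-- `f_n ∘ ... ∘ f_1`, where `f_k` is `f (k - 1)` -/
def comp (f : ℕ → ℂ → ℂ) : ℕ → ℂ → ℂ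
  | 0 => id
  | n + 1 => f n ∘ comp f n

theorem HH_norm_le (n : ℕ) {z : ℂ} (hz : ‖z‖ ≤ 1) : ‖HH n z‖ ≤ ‖z‖ := by
  induction n with
  | zero => exact le_rfl
  | succ n ih =>
    have h1 : ‖HH n z‖ ≤ 1 := ih.trans hz
    exact (norm_bl_le (cc_abs _) h1).trans ih

theorem HH_norm_eq (n : ℕ) {z : ℂ} (hz : ‖z‖ = 1) : ‖HH n z‖ = 1 := by
  induction n with
  | zero => exact hz
  | succ n ih => exact norm_bl_eq (cc_abs _) ih

theorem HH_diff (n : ℕ) {z : ℂ} (hz : ‖z‖ ≤ 1) : DifferentiableAt ℂ (HH n) z := by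
  induction n with
  | zero => exact differentiableAt_id
  | succ n ih => exact (diff_bl (cc_abs _) ((HH_norm_le n hz).trans hz)).comp z ih

theorem HH_zero (n : ℕ) : HH n 0 = 0 := by
  have := HH_norm_le n (z := 0) (by simp)
  rw [norm_zero] at this
  exact norm_le_zero_iff.1 this

theorem comp_eq (n : ℕ) {z : ℂ} (hz : ‖z‖ ≤ 1) : comp ff n z = mob (aa n) (HH n z) := by
  induction n with
  | zero =>
    have : aa 0 = 0 := by simp [aa]
    simp [comp, HH, mob, this]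
  | succ n ih =>
    have h1 : ‖HH n z‖ ≤ 1 := (HH_norm_le n hz).trans hz
    change ff n (comp ff n z) = _
    rw [ih, ff]
    simp only [Function.comp]
    rw [mob_neg_mob (aa_abs n) h1]
    rfl

theorem ff_diff (n : ℕ) {z : ℂ} (hz : ‖z‖ ≤ 1) : DifferentiableAt ℂ (ff n) z := by
  have h1 := norm_mob_le (aa_abs' n) hz
  have h2 := (norm_bl_le (cc_abs (n + 1)) h1).trans h1
  exact (diff_mob (aa_abs (n + 1)) h2).comp z ((diff_bl (cc_abs (n + 1)) h1).comp z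
    (diff_mob (aa_abs' n) hz))

theorem ff_norm_lt (n : ℕ) {z : ℂ} (hz : ‖z‖ < 1) : ‖ff n z‖ < 1 := by
  have h1 := norm_mob_lt (aa_abs' n) hz
  have h2 := (norm_bl_le (cc_abs (n + 1)) h1.le).trans_lt h1
  exact norm_mob_lt (aa_abs (n + 1)) h2

theorem ff_norm_eq (n : ℕ) {z : ℂ} (hz : ‖z‖ = 1) : ‖ff n z‖ = 1 := by
  have h1 := norm_mob_eq (aa_abs' n) hz
  have h2 := norm_bl_eq (cc_abs (n + 1)) h1
  exact norm_mob_eq (aa_abs (n + 1)) h2

theorem ff_norm_le (n : ℕ) {z : ℂ} (hz : ‖z‖ ≤ 1) : ‖ff n z‖ ≤ 1 := by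
  rcases lt_or_eq_of_le hz with h | h
  · exact (ff_norm_lt n h).le
  · exact (ff_norm_eq n h).le

theorem comp_norm_le (n : ℕ) {z : ℂ} (hz : ‖z‖ ≤ 1) : ‖comp ff n z‖ ≤ 1 := by
  rw [comp_eq n hz]
  exact norm_mob_le (aa_abs n) ((HH_norm_le n hz).trans hz)

theorem comp_diff (n : ℕ) {z : ℂ} (hz : ‖z‖ ≤ 1) : DifferentiableAt ℂ (comp ff n) z := by
  induction n with
  | zero => exact differentiableAt_id
  | succ n ih => exact (ff_diff n (comp_norm_le n hz)).comp z ih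

/-- the maps `ff n` are not injective on the disc -/
theorem ff_not_inj (n : ℕ) : ∃ z w : ℂ, ‖z‖ < 1 ∧ ‖w‖ < 1 ∧ z ≠ w ∧ ff n z = ff n w := by
  obtain ⟨u, v, hu, hv, huv, h⟩ : ∃ u v : ℂ, ‖u‖ < 1 ∧ ‖v‖ < 1 ∧ u ≠ v ∧
      bl (cc (n + 1)) u = bl (cc (n + 1)) v := by
    rcases eq_or_lt_of_le (cc_nonneg (n + 1)) with h0 | h0
    · refine ⟨1 / 2, -(1 / 2), by norm_num, by norm_num, by norm_num, ?_⟩
      rw [← h0]
      simp [bl, mob]
    · refine ⟨0, -(cc (n + 1) : ℝ), by simp, ?_, ?_, ?_⟩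
      · rw [norm_neg, norm_real, Real.norm_eq_abs]
        exact cc_abs _
      · intro h
        have h1 : ((cc (n + 1) : ℝ) : ℂ) = 0 := by linear_combination h
        have h2 : cc (n + 1) = 0 := by exact_mod_cast h1
        exact h0.ne' h2
      · simp [bl, mob]
  have hinv : ∀ u : ℂ, ‖u‖ < 1 → mob (-aa n) (mob (aa n) u) = u := fun u hu =>
    mob_neg_mob (aa_abs n) hu.le
  refine ⟨mob (aa n) u, mob (aa n) v, norm_mob_lt (aa_abs n) hu, norm_mob_lt (aa_abs n) hv, ?_, ?_⟩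
  · intro he
    have := congrArg (mob (-aa n)) he
    rw [hinv u hu, hinv v hv] at this
    exact huv this
  · simp only [ff, Function.comp]
    rw [hinv u hu, hinv v hv, h]

/-! ### interior behaviour -/

theorem log4 (k : ℕ) : Nat.log 4 (4 ^ k) = k := Nat.log_pow (by norm_num) k

theorem cc_pow (k : ℕ) : cc (4 ^ k) = 0 := by
  rw [cc, log4]
  simp

theorem HH_step_le (n : ℕ) {z : ℂ} (hz : ‖z‖ ≤ 1) : ‖HH (n + 1) z‖ ≤ ‖HH n z‖ :=
  norm_bl_le (cc_abs _) ((HH_norm_le n hz).trans hz)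

theorem HH_mono {m n : ℕ} (h : m ≤ n) {z : ℂ} (hz : ‖z‖ ≤ 1) : ‖HH n z‖ ≤ ‖HH m z‖ := by
  induction h with
  | refl => exact le_rfl
  | step _ ih => exact (HH_step_le _ hz).trans ih

theorem HH_pow (k : ℕ) {z : ℂ} (hz : ‖z‖ ≤ 1) : ‖HH (4 ^ k) z‖ ≤ ‖z‖ ^ 2 ^ k := by
  have key : ∀ k : ℕ, ∃ m, 4 ^ k = m + 1 ∧ ‖HH (4 ^ k) z‖ = ‖HH m z‖ ^ 2 := by
    intro k
    obtain ⟨m, hm⟩ : ∃ m, 4 ^ k = m + 1 :=
      ⟨4 ^ k - 1, by have : 0 < 4 ^ k := by positivity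
                     omega⟩
    refine ⟨m, hm, ?_⟩
    have hc : cc (m + 1) = 0 := by rw [← hm, cc_pow]
    rw [hm]
    change ‖bl (cc (m + 1)) (HH m z)‖ = _
    rw [hc]
    simp [bl, mob, sq]
  induction k with
  | zero =>
    obtain ⟨m, hm, h⟩ := key 0
    rw [h]
    have h1 := HH_norm_le m hz
    have h2 : ‖HH m z‖ ≤ 1 := h1.trans hz
    rw [pow_zero, pow_one]
    nlinarith [norm_nonneg (HH m z)]
  | succ k ih =>
    obtain ⟨m, hm, h⟩ := key (k + 1)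
    have hmk : 4 ^ k ≤ m := by
      have : 4 ^ (k + 1) = 4 * 4 ^ k := by ring
      have : 0 < 4 ^ k := by positivity
      omega
    rw [h, pow_succ 2 k, pow_mul]
    exact pow_le_pow_left₀ (norm_nonneg _) ((HH_mono hmk hz).trans ih) 2

theorem HH_tendsto {z : ℂ} (hz : ‖z‖ < 1) : Tendsto (fun n => HH n z) atTop (𝓝 0) := by
  rw [tendsto_zero_iff_norm_tendsto_zero, Metric.tendsto_atTop]
  intro ε hε
  have h1 : Tendsto (fun k : ℕ => ‖z‖ ^ 2 ^ k) atTop (𝓝 0) :=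
    (tendsto_pow_atTop_nhds_zero_of_lt_one (norm_nonneg _) hz).comp
      (tendsto_pow_atTop_atTop_of_one_lt (by norm_num))
  obtain ⟨k, hk⟩ := (h1.eventually (gt_mem_nhds hε)).exists
  refine ⟨4 ^ k, fun n hn => ?_⟩
  rw [Real.dist_eq, sub_zero, abs_of_nonneg (norm_nonneg _)]
  exact ((HH_mono hn hz.le).trans (HH_pow k hz.le)).trans_lt hk

theorem log_tendsto : Tendsto (fun n => Nat.log 4 n) atTop atTop := by
  rw [tendsto_atTop]
  intro b
  filter_upwards [eventually_ge_atTop (4 ^ b)] with n hn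
  rw [← log4 b]
  exact Nat.log_mono_right hn

theorem aa_tendsto : Tendsto aa atTop (𝓝 1) := by
  have h1 : Tendsto (fun n : ℕ => (1 / 4 : ℝ) ^ Nat.log 4 n) atTop (𝓝 0) :=
    (tendsto_pow_atTop_nhds_zero_of_lt_one (by norm_num) (by norm_num)).comp log_tendsto
  have h2 := h1.const_sub 1
  rw [sub_zero] at h2
  exact h2

theorem comp_tendsto {z : ℂ} (hz : ‖z‖ < 1) : Tendsto (fun n => comp ff n z) atTop (𝓝 1) := by
  have h1 : ∀ n, comp ff n z = (HH n z + aa n) / (1 + aa n * HH n z) := fun n => comp_eq n hz.le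
  simp_rw [h1]
  have h2 := HH_tendsto hz
  have h3 : Tendsto (fun n => ((aa n : ℝ) : ℂ)) atTop (𝓝 ((1 : ℝ) : ℂ)) :=
    (Complex.continuous_ofReal.tendsto 1).comp aa_tendsto
  have h4 : Tendsto (fun n => (HH n z + aa n) / (1 + aa n * HH n z)) atTop
      (𝓝 ((0 + ((1 : ℝ) : ℂ)) / (1 + ((1 : ℝ) : ℂ) * 0))) :=
    (h2.add h3).div ((h3.mul h2).const_add 1) (by simp)
  simpa using h4

theorem comp_zero (n : ℕ) : comp ff n 0 = aa n := by
  rw [comp_eq n (by simp), HH_zero, mob]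
  simp

theorem not_summable_comp : ¬ Summable fun n => 1 - ‖comp ff n 0‖ := by
  intro h
  have h1 : ∀ n : ℕ, 1 - ‖comp ff n 0‖ = (1 / 4 : ℝ) ^ Nat.log 4 n := by
    intro n
    rw [comp_zero, norm_real, Real.norm_eq_abs, abs_of_nonneg (aa_nonneg n), aa]
    ring
  simp_rw [h1] at h
  refine Real.not_summable_natCast_inv (Summable.of_nonneg_of_le (fun n => by positivity)
    (fun n => ?_) h)
  rcases Nat.eq_zero_or_pos n with h0 | h0
  · subst h0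
    simp
  · have h2 : 4 ^ Nat.log 4 n ≤ n := Nat.pow_log_le_self 4 h0.ne'
    have h3 : (4 : ℝ) ^ Nat.log 4 n ≤ n := by exact_mod_cast h2
    rw [one_div, inv_pow]
    exact inv_anti₀ (by positivity) h3

end Pool.Agent.H516_DW
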