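import Mathlib
import Pool.Agent.H516_DW.Basic

/-! Boundary behaviour of the slow compositions. -/

namespace Pool.Agent.H516_DW

open Complex Filter Topology MeasureTheory Set

theorem re_cayley (w : ℂ) : ((1 - w) / (1 + w)).re = (1 - ‖w‖ ^ 2) / ‖1 + w‖ ^ 2 := by
  rw [Complex.div_re, Complex.sq_norm, Complex.sq_norm, ← add_div, normSq_apply w]
  congr 1
  simp
  ring

/-- the mean of the Poisson type kernel -/
theorem mean_eq (n : ℕ) {r : ℝ} (hr0 : 0 ≤ r) (hr1 : r < 1) :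
    ∫ θ in (0 : ℝ)..2 * Real.pi, (1 - r ^ 2) / ‖1 + (r : ℂ) * HH n (circleMap 0 1 θ)‖ ^ 2 =
      2 * Real.pi := by
  have hne : ∀ z : ℂ, ‖z‖ ≤ 1 → (1 : ℂ) + r * HH n z ≠ 0 := fun z hz =>
    den_ne (by rw [abs_of_nonneg hr0]; exact hr1) ((HH_norm_le n hz).trans hz)
  let g : ℂ → ℂ := fun z => (1 - r * HH n z) / (1 + r * HH n z)
  have hg : ∀ z : ℂ, ‖z‖ ≤ 1 → DifferentiableAt ℂ g z := by
    intro z hz
    have h1 := HH_diff n hz
    exact DifferentiableAt.div (by fun_prop) (by fun_prop) (hne z hz)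
  have hcl : DiffContOnCl ℂ g (Metric.ball 0 |1|) := by
    apply DifferentiableOn.diffContOnCl
    intro z hz
    rw [abs_one, closure_ball _ one_ne_zero, mem_closedBall_zero_iff] at hz
    exact (hg z hz).differentiableWithinAt
  have hav := hcl.circleAverage
  rw [Real.circleAverage_def] at hav
  have hg0 : g 0 = 1 := by simp [g, HH_zero]
  rw [hg0] at hav
  have hpi : (0 : ℝ) < 2 * Real.pi := by positivity
  have hint : ∫ θ in (0 : ℝ)..2 * Real.pi, g (circleMap 0 1 θ) = ((2 * Real.pi : ℝ) : ℂ) := by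
    have h2 := congrArg (fun w : ℂ => (2 * Real.pi : ℝ) • w) hav
    beta_reduce at h2
    rw [smul_smul, mul_inv_cancel₀ hpi.ne', one_smul] at h2
    rw [h2]
    simp
  have hnorm : ∀ θ : ℝ, ‖circleMap (0 : ℂ) 1 θ‖ = 1 := fun θ => by simp
  have hcont : Continuous fun θ : ℝ => g (circleMap 0 1 θ) := by
    rw [continuous_iff_continuousAt]
    intro θ
    exact ContinuousAt.comp (hg _ (hnorm θ).le).continuousAt (continuous_circleMap 0 1).continuousAt
  have hre := Complex.reCLM.intervalIntegral_comp_comm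
    (hcont.intervalIntegrable (μ := volume) 0 (2 * Real.pi))
  rw [hint] at hre
  simp only [Complex.reCLM_apply, ofReal_re] at hre
  refine Eq.trans ?_ hre
  refine intervalIntegral.integral_congr fun θ _ => ?_
  simp only [g]
  rw [re_cayley, norm_mul, HH_norm_eq n (hnorm θ), norm_real, Real.norm_eq_abs, mul_one, sq_abs]

/-- the set where `H_n` is close to `-1` -/
def bad (n : ℕ) (s : ℝ) : Set ℝ := {θ | ‖1 + HH n (circleMap 0 1 θ)‖ ≤ s}

theorem measure_bad (n : ℕ) {s : ℝ} (hs0 : 0 < s) (hs1 : s ≤ 1) :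
    (volume.restrict (Ioc 0 (2 * Real.pi))) (bad n s) ≤ ENNReal.ofReal (8 * Real.pi * s) := by
  set r : ℝ := 1 - s with hr
  have hr0 : 0 ≤ r := by linarith
  have hr1 : r < 1 := by linarith
  have hmean := mean_eq n hr0 hr1
  have hpi : (0 : ℝ) ≤ 2 * Real.pi := by positivity
  rw [intervalIntegral.integral_of_le hpi] at hmean
  set u : ℝ → ℝ := fun θ => (1 - r ^ 2) / ‖1 + (r : ℂ) * HH n (circleMap 0 1 θ)‖ ^ 2 with hu
  have hnorm : ∀ θ : ℝ, ‖circleMap (0 : ℂ) 1 θ‖ = 1 := fun θ => by simp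
  have hne : ∀ θ : ℝ, (1 : ℂ) + r * HH n (circleMap 0 1 θ) ≠ 0 := fun θ =>
    den_ne (by rw [abs_of_nonneg hr0]; exact hr1) (HH_norm_eq n (hnorm θ)).le
  have hr2 : 0 ≤ 1 - r ^ 2 := by nlinarith
  have hu0 : ∀ θ, 0 ≤ u θ := fun θ => by
    simp only [hu]
    positivity
  have hcont : Continuous u := by
    have h1 : Continuous fun θ : ℝ => HH n (circleMap 0 1 θ) := by
      rw [continuous_iff_continuousAt]
      intro θ
      exact ContinuousAt.comp (HH_diff n (hnorm θ).le).continuousAt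
        (continuous_circleMap 0 1).continuousAt
    refine Continuous.div continuous_const (by fun_prop) fun θ => ?_
    exact pow_ne_zero 2 (norm_ne_zero_iff.2 (hne θ))
  have hsub : bad n s ⊆ {θ | 1 / (4 * s) ≤ u θ} := by
    intro θ hθ
    change 1 / (4 * s) ≤ u θ
    have h1 : ‖(1 : ℂ) + r * HH n (circleMap 0 1 θ)‖ ≤ 2 * s := by
      have e : (1 : ℂ) + r * HH n (circleMap 0 1 θ) = (1 + HH n (circleMap 0 1 θ)) -
          (s : ℂ) * HH n (circleMap 0 1 θ) := by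
        rw [hr]
        push_cast
        ring
      rw [e]
      refine (norm_sub_le _ _).trans ?_
      rw [norm_mul, HH_norm_eq n (hnorm θ), norm_real, Real.norm_eq_abs, abs_of_pos hs0, mul_one]
      have : ‖1 + HH n (circleMap 0 1 θ)‖ ≤ s := hθ
      linarith
    have h2 : 0 < ‖(1 : ℂ) + r * HH n (circleMap 0 1 θ)‖ := norm_pos_iff.2 (hne θ)
    simp only [hu]
    rw [div_le_div_iff₀ (by positivity) (by positivity)]
    have h3 : ‖(1 : ℂ) + r * HH n (circleMap 0 1 θ)‖ ^ 2 ≤ (2 * s) ^ 2 :=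
      pow_le_pow_left₀ h2.le h1 2
    have h4 : s ≤ 1 - r ^ 2 := by
      rw [hr]
      nlinarith
    nlinarith
  have hm := mul_meas_ge_le_integral_of_nonneg (μ := volume.restrict (Ioc 0 (2 * Real.pi)))
    (f := u) (ae_of_all _ hu0) (hcont.integrableOn_Ioc) (1 / (4 * s))
  rw [hmean] at hm
  have h5 : (volume.restrict (Ioc 0 (2 * Real.pi))).real {θ | 1 / (4 * s) ≤ u θ} ≤
      8 * Real.pi * s := by
    have h6 : 0 < 4 * s := by positivity
    generalize (volume.restrict (Ioc 0 (2 * Real.pi))).real {θ | 1 / (4 * s) ≤ u θ} = X at hm ⊢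
    rw [one_div, inv_mul_le_iff₀ h6] at hm
    linarith
  calc (volume.restrict (Ioc 0 (2 * Real.pi))) (bad n s) ≤
      (volume.restrict (Ioc 0 (2 * Real.pi))) {θ | 1 / (4 * s) ≤ u θ} := measure_mono hsub
    _ = ENNReal.ofReal ((volume.restrict (Ioc 0 (2 * Real.pi))).real {θ | 1 / (4 * s) ≤ u θ}) := by
        rw [measureReal_def, ENNReal.ofReal_toReal]
        exact measure_ne_top _ _
    _ ≤ _ := ENNReal.ofReal_le_ofReal h5

theorem ae_good (m : ℕ → ℕ) (C : ℝ) (hC : 0 < C) :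
    ∀ᵐ θ ∂(volume.restrict (Ioc 0 (2 * Real.pi))),
      ∀ᶠ n in atTop, C * (1 / 2 : ℝ) ^ n < ‖1 + HH (m n) (circleMap 0 1 θ)‖ := by
  -- eventually the thresholds are at most one
  obtain ⟨n0, hn0⟩ : ∃ n0 : ℕ, C * (1 / 2 : ℝ) ^ n0 ≤ 1 := by
    have h1 : Tendsto (fun n : ℕ => C * (1 / 2 : ℝ) ^ n) atTop (𝓝 (C * 0)) :=
      (tendsto_pow_atTop_nhds_zero_of_lt_one (by norm_num) (by norm_num)).const_mul C
    rw [mul_zero] at h1
    obtain ⟨n0, h⟩ := (h1.eventually (ge_mem_nhds zero_lt_one)).exists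
    exact ⟨n0, h⟩
  have hle : ∀ n, C * (1 / 2 : ℝ) ^ (n + n0) ≤ 1 := by
    intro n
    refine le_trans ?_ hn0
    apply mul_le_mul_of_nonneg_left _ hC.le
    exact pow_le_pow_of_le_one (by norm_num) (by norm_num) (Nat.le_add_left _ _)
  have hsum : ∑' n : ℕ, (volume.restrict (Ioc 0 (2 * Real.pi)))
      (bad (m (n + n0)) (C * (1 / 2 : ℝ) ^ (n + n0))) ≠ ⊤ := by
    have h1 : ∀ n : ℕ, (volume.restrict (Ioc 0 (2 * Real.pi)))
        (bad (m (n + n0)) (C * (1 / 2 : ℝ) ^ (n + n0))) ≤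
        ENNReal.ofReal (8 * Real.pi * C) * (1 / 2 : ENNReal) ^ n := by
      intro n
      refine (measure_bad _ (by positivity) (hle n)).trans ?_
      have e : (1 / 2 : ENNReal) ^ n = ENNReal.ofReal ((1 / 2 : ℝ) ^ n) := by
        rw [ENNReal.ofReal_pow (by norm_num)]
        congr 1
        rw [ENNReal.ofReal_div_of_pos (by norm_num)]
        simp
      rw [e, ← ENNReal.ofReal_mul (by positivity)]
      apply ENNReal.ofReal_le_ofReal
      have h2 : (1 / 2 : ℝ) ^ (n + n0) ≤ (1 / 2) ^ n :=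
        pow_le_pow_of_le_one (by norm_num) (by norm_num) (Nat.le_add_right _ _)
      have h3 : 0 < 8 * Real.pi * C := by positivity
      nlinarith
    refine ne_top_of_le_ne_top ?_ (ENNReal.tsum_le_tsum h1)
    rw [ENNReal.tsum_mul_left, ENNReal.tsum_geometric]
    apply ENNReal.mul_ne_top ENNReal.ofReal_ne_top
    rw [ENNReal.inv_ne_top]
    have : (1 / 2 : ENNReal) < 1 := by
      rw [one_div]
      exact ENNReal.one_half_lt_one
    exact (tsub_pos_iff_lt.2 this).ne'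
  filter_upwards [ae_eventually_notMem hsum] with θ hθ
  obtain ⟨N, hN⟩ := eventually_atTop.1 hθ
  refine eventually_atTop.2 ⟨N + n0, fun n hn => ?_⟩
  have h := hN (n - n0) (by omega)
  rw [Nat.sub_add_cancel (by omega)] at h
  exact not_le.1 h

/-- displacement in one step -/
theorem step_le (n : ℕ) {z : ℂ} (hz : ‖z‖ = 1) (h0 : 0 < ‖1 + HH n z‖) :
    ‖HH (n + 1) z - HH n z‖ ≤ 4 * (1 - cc (n + 1)) / ‖1 + HH n z‖ := by
  set w := HH n z with hw
  have hw1 : ‖w‖ = 1 := HH_norm_eq n hz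
  set c := cc (n + 1) with hc
  have hc0 : 0 ≤ c := cc_nonneg _
  have hc1 : c < 1 := cc_lt _
  have hd : (1 : ℂ) + c * w ≠ 0 := den_ne (cc_abs _) hw1.le
  have e : HH (n + 1) z - HH n z = w * ((w - 1) * (1 - c)) / (1 + c * w) := by
    change bl c w - w = _
    rw [bl, mob, eq_div_iff hd, sub_mul, mul_assoc, div_mul_cancel₀ _ hd]
    ring
  have h1 : ‖1 + w‖ ≤ 2 * ‖(1 : ℂ) + c * w‖ := by
    have e1 : 1 + w = (1 + c * w) + (1 - c) * w := by ring
    have h2 : ‖((1 : ℂ) - c) * w‖ = 1 - c := by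
      rw [norm_mul, hw1, mul_one]
      have : ((1 : ℂ) - c) = ((1 - c : ℝ) : ℂ) := by push_cast; ring
      rw [this, norm_real, Real.norm_eq_abs, abs_of_pos (by linarith)]
    have h3 : 1 - c ≤ ‖(1 : ℂ) + c * w‖ := by
      have h4 : ‖(c : ℂ) * w‖ = c := by
        rw [norm_mul, hw1, mul_one, norm_real, Real.norm_eq_abs, abs_of_nonneg hc0]
      have h5 := norm_sub_norm_le (1 : ℂ) (-(c * w))
      rw [norm_neg, h4, norm_one, sub_neg_eq_add] at h5
      exact h5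
    calc ‖1 + w‖ = ‖(1 + c * w) + (1 - c) * w‖ := by rw [← e1]
      _ ≤ ‖(1 : ℂ) + c * w‖ + ‖((1 : ℂ) - c) * w‖ := norm_add_le _ _
      _ ≤ 2 * ‖(1 : ℂ) + c * w‖ := by rw [h2]; linarith
  have hdp : 0 < ‖(1 : ℂ) + c * w‖ := norm_pos_iff.2 hd
  have h6 : ‖w - 1‖ ≤ 2 := by
    refine (norm_sub_le _ _).trans ?_
    rw [hw1]
    norm_num
  have h7 : ‖((1 : ℂ) - c)‖ = 1 - c := by
    have : ((1 : ℂ) - c) = ((1 - c : ℝ) : ℂ) := by push_cast; ring
    rw [this, norm_real, Real.norm_eq_abs, abs_of_pos (by linarith)]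
  rw [e, norm_div, norm_mul, norm_mul, hw1, one_mul, h7, div_le_div_iff₀ hdp h0]
  have h8 : 0 ≤ 1 - c := by linarith
  calc ‖w - 1‖ * (1 - c) * ‖1 + w‖ ≤ 2 * (1 - c) * (2 * ‖(1 : ℂ) + c * w‖) := by gcongr
    _ = _ := by ring

/-- inside a phase the compositions hardly move -/
theorem phase {z : ℂ} (hz : ‖z‖ = 1) {k : ℕ}
    (h1 : ∀ n, 4 ^ k ≤ n → (1 / 2 : ℝ) ^ n < ‖1 + HH n z‖) {n : ℕ} (hn : 4 ^ k ≤ n)
    (hn2 : n < 4 ^ (k + 1)) :
    ‖HH n z - HH (4 ^ k) z‖ ≤ 2 * (1 / 2 : ℝ) ^ 4 ^ k - 2 * (1 / 2) ^ n := by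
  induction n, hn using Nat.le_induction with
  | base => simp
  | succ n hn ih =>
    have ih := ih (by omega)
    have hlog : Nat.log 4 (n + 1) = k :=
      Nat.log_eq_of_pow_le_of_lt_pow (by omega) hn2
    have hcc : 1 - cc (n + 1) = (1 / 4) ^ (n + 1) := by
      rw [cc, hlog, if_neg (by omega)]
      ring
    have h3 := h1 n hn
    have hp : (0 : ℝ) < (1 / 2) ^ n := by positivity
    have h4 := step_le n hz (hp.trans h3)
    rw [hcc] at h4
    have h5 : 4 * (1 / 4 : ℝ) ^ (n + 1) / ‖1 + HH n z‖ ≤ (1 / 2) ^ n := by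
      rw [div_le_iff₀ (hp.trans h3)]
      have e : 4 * (1 / 4 : ℝ) ^ (n + 1) = (1 / 2) ^ n * (1 / 2) ^ n := by
        rw [← mul_pow, pow_succ]
        norm_num
        ring
      rw [e]
      exact mul_le_mul_of_nonneg_left h3.le hp.le
    have h6 : ‖HH (n + 1) z - HH (4 ^ k) z‖ ≤ ‖HH (n + 1) z - HH n z‖ +
        ‖HH n z - HH (4 ^ k) z‖ := by
      have := norm_add_le (HH (n + 1) z - HH n z) (HH n z - HH (4 ^ k) z)
      rwa [sub_add_sub_cancel] at this
    have h7 : (1 / 2 : ℝ) ^ (n + 1) = (1 / 2) ^ n / 2 := by rw [pow_succ]; ring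
    linarith [h4.trans h5]

theorem boundary {z : ℂ} (hz : ‖z‖ = 1)
    (h1 : ∀ᶠ n in atTop, (1 / 2 : ℝ) ^ n < ‖1 + HH n z‖)
    (h2 : ∀ᶠ k in atTop, 2 * (1 / 2 : ℝ) ^ k < ‖1 + HH (4 ^ k) z‖) :
    Tendsto (fun n => ‖comp ff n z - comp ff n 0‖) atTop (𝓝 0) := by
  obtain ⟨N1, hN1⟩ := eventually_atTop.1 h1
  obtain ⟨N2, hN2⟩ := eventually_atTop.1 h2
  have key : ∀ᶠ n in atTop, ‖comp ff n z - comp ff n 0‖ ≤ 4 * (1 / 2 : ℝ) ^ Nat.log 4 n := by
    filter_upwards [log_tendsto.eventually (eventually_ge_atTop (max N1 N2)),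
      eventually_ge_atTop 1] with n hn hn1
    set k := Nat.log 4 n with hk
    have hk1 : 4 ^ k ≤ n := Nat.pow_log_le_self 4 (by omega)
    have hk2 : n < 4 ^ (k + 1) := Nat.lt_pow_succ_log_self (by norm_num) n
    have hkN : k < 4 ^ k := Nat.lt_pow_self (by norm_num)
    have h3 := phase hz (k := k) (fun m hm => hN1 m (by
      have := le_max_left N1 N2
      omega)) hk1 hk2
    have h4 : 2 * (1 / 2 : ℝ) ^ 4 ^ k ≤ (1 / 2) ^ k := by
      have h5 : (1 / 2 : ℝ) ^ 4 ^ k ≤ (1 / 2) ^ (k + 1) :=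
        pow_le_pow_of_le_one (by norm_num) (by norm_num) hkN
      rw [pow_succ] at h5
      linarith
    have h5 : (1 / 2 : ℝ) ^ k ≤ ‖1 + HH n z‖ := by
      have h6 := hN2 k (le_trans (le_max_right _ _) hn)
      have h7 : ‖1 + HH (4 ^ k) z‖ ≤ ‖1 + HH n z‖ + ‖HH n z - HH (4 ^ k) z‖ := by
        have e : 1 + HH (4 ^ k) z = (1 + HH n z) - (HH n z - HH (4 ^ k) z) := by ring
        rw [e]
        exact norm_sub_le _ _
      have h8 : (0 : ℝ) < (1 / 2) ^ n := by positivity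
      linarith
    -- the formula
    have ha0 := aa_nonneg n
    have ha1 := aa_lt n
    set a := aa n with ha
    set w := HH n z with hw
    have hw1 : ‖w‖ = 1 := HH_norm_eq n hz
    have hd : (1 : ℂ) + a * w ≠ 0 := den_ne (aa_abs n) hw1.le
    have hdp : 0 < ‖(1 : ℂ) + a * w‖ := norm_pos_iff.2 hd
    have e : comp ff n z - comp ff n 0 = w * (1 - a * a) / (1 + a * w) := by
      rw [comp_eq n hz.le, comp_zero, mob, eq_div_iff hd, sub_mul, div_mul_cancel₀ _ hd]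
      ring
    have h9 : ‖1 + w‖ ≤ 2 * ‖(1 : ℂ) + a * w‖ := by
      have e1 : 1 + w = (1 + a * w) + (1 - a) * w := by ring
      have g2 : ‖((1 : ℂ) - a) * w‖ = 1 - a := by
        rw [norm_mul, hw1, mul_one]
        have : ((1 : ℂ) - a) = ((1 - a : ℝ) : ℂ) := by push_cast; ring
        rw [this, norm_real, Real.norm_eq_abs, abs_of_pos (by linarith)]
      have g3 : 1 - a ≤ ‖(1 : ℂ) + a * w‖ := by
        have g4 : ‖(a : ℂ) * w‖ = a := by
          rw [norm_mul, hw1, mul_one, norm_real, Real.norm_eq_abs, abs_of_nonneg ha0]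
        have g5 := norm_sub_norm_le (1 : ℂ) (-(a * w))
        rw [norm_neg, g4, norm_one, sub_neg_eq_add] at g5
        exact g5
      calc ‖1 + w‖ = ‖(1 + a * w) + (1 - a) * w‖ := by rw [← e1]
        _ ≤ ‖(1 : ℂ) + a * w‖ + ‖((1 : ℂ) - a) * w‖ := norm_add_le _ _
        _ ≤ 2 * ‖(1 : ℂ) + a * w‖ := by rw [g2]; linarith
    have h10 : ‖((1 : ℂ) - a * a)‖ = 1 - a * a := by
      have : ((1 : ℂ) - a * a) = ((1 - a * a : ℝ) : ℂ) := by push_cast; ring
      rw [this, norm_real, Real.norm_eq_abs, abs_of_nonneg (by nlinarith)]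
    have h11 : 1 - a * a ≤ 2 * ((1 / 2) ^ k * (1 / 2) ^ k) := by
      have e2 : (1 / 2 : ℝ) ^ k * (1 / 2) ^ k = (1 / 4) ^ k := by
        rw [← mul_pow]
        norm_num
      have e3 : a = 1 - (1 / 4) ^ k := by rw [ha, aa]
      rw [e2]
      have : (0 : ℝ) ≤ (1 / 4) ^ k := by positivity
      rw [e3]
      nlinarith
    rw [e, norm_div, norm_mul, hw1, one_mul, h10, div_le_iff₀ hdp]
    have hp : (0 : ℝ) < (1 / 2) ^ k := by positivity
    nlinarith
  have hlim : Tendsto (fun n : ℕ => 4 * (1 / 2 : ℝ) ^ Nat.log 4 n) atTop (𝓝 0) := by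
    have := ((tendsto_pow_atTop_nhds_zero_of_lt_one (r := (1 / 2 : ℝ)) (by norm_num)
      (by norm_num)).comp log_tendsto).const_mul 4
    simpa using this
  exact squeeze_zero' (Eventually.of_forall fun n => norm_nonneg _) key hlim

theorem ae_boundary : ∀ᵐ θ ∂(volume.restrict (Ioc 0 (2 * Real.pi))),
    Tendsto (fun n => ‖comp ff n (circleMap 0 1 θ) - comp ff n 0‖) atTop (𝓝 0) := by
  filter_upwards [ae_good id 1 one_pos, ae_good (fun k => 4 ^ k) 2 two_pos] with θ h1 h2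
  apply boundary (by simp) _ h2
  simpa using h1

end Pool.Agent.H516_DW
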